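import Pool.Agent.H8.ZA.Targets

/-!
# The dimension of the space spanned by `P ^ a * z_2 ^ i * z_0 ^ b * z_1 ^ c`
-/

set_option autoImplicit false

open MvPolynomial

namespace Pool.Agent.H14.ZA

open Pool.Agent.H8.ZA

section

variable {L : Type} [Field L]

lemma fin3_sum (n : Fin 3 →₀ ℕ) : (n.sum fun _ e => e) = n 0 + n 1 + n 2 := by
  rw [Finsupp.sum_fintype _ _ (fun _ => rfl), Fin.sum_univ_three]

lemma supp_deg {P : Po L} {D : ℕ} (hP : P.totalDegree ≤ D) {n : Fin 3 →₀ ℕ}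
    (hn : coeff n P ≠ 0) : n 0 + n 1 + n 2 ≤ D := by
  have h1 := le_totalDegree (mem_support_iff.2 hn)
  rw [fin3_sum] at h1
  exact h1.trans hP

lemma eq_single_of {n : Fin 3 →₀ ℕ} {N : ℕ} (h0 : n 0 = 0) (h1 : n 1 = 0) (h2 : n 2 = N) :
    n = Finsupp.single 2 N := by
  ext j
  fin_cases j
  · simpa using h0
  · simpa using h1
  · simpa using h2

lemma coeff_pow_lead {P : Po L} {D : ℕ} (hP : P.totalDegree ≤ D) (a : ℕ) :
    coeff (Finsupp.single 2 (a * D)) (P ^ a) = coeff (Finsupp.single 2 D) P ^ a := by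
  classical
  induction a with
  | zero => simp
  | succ a ih =>
    rw [pow_succ, pow_succ, coeff_mul, Finset.sum_eq_single (Finsupp.single 2 (a * D),
      Finsupp.single 2 D), ih]
    · rintro ⟨x, y⟩ hxy hne
      rw [Finset.HasAntidiagonal.mem_antidiagonal] at hxy
      simp only at hxy ⊢
      by_contra hcon
      have hx : coeff x (P ^ a) ≠ 0 := left_ne_zero_of_mul hcon
      have hy : coeff y P ≠ 0 := right_ne_zero_of_mul hcon
      have hx' := supp_deg (D := a * D) ((totalDegree_pow _ _).trans (Nat.mul_le_mul_left _ hP)) hx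
      have hy' := supp_deg hP hy
      have e0 := DFunLike.congr_fun hxy 0
      have e1 := DFunLike.congr_fun hxy 1
      have e2 := DFunLike.congr_fun hxy 2
      simp only [Finsupp.add_apply, Finsupp.single_apply] at e0 e1 e2
      simp only [if_true, Nat.succ_mul] at e2
      apply hne
      have hxs : x = Finsupp.single 2 (a * D) := eq_single_of (by omega) (by omega) (by omega)
      have hys : y = Finsupp.single 2 D := eq_single_of (by omega) (by omega) (by omega)
      rw [hxs, hys]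
    · intro h
      exfalso
      apply h
      rw [Finset.HasAntidiagonal.mem_antidiagonal, ← Finsupp.single_add, Nat.succ_mul]

/-- the element with index `(a, i, b, c)` -/
noncomputable def vel (P : Po L) (x : ℕ × ℕ × (Σ _ : ℕ, ℕ)) : Po L :=
  P ^ x.1 * X 2 ^ x.2.1 * (X 0 ^ x.2.2.1 * X 1 ^ x.2.2.2)

/-- the exponent of the shift -/
noncomputable def sh (x : ℕ × ℕ × (Σ _ : ℕ, ℕ)) : Fin 3 →₀ ℕ :=
  Finsupp.single 2 x.2.1 + (Finsupp.single 0 x.2.2.1 + Finsupp.single 1 x.2.2.2)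

lemma sh_two (x : ℕ × ℕ × (Σ _ : ℕ, ℕ)) : sh x 2 = x.2.1 := by
  simp [sh]

lemma sh_zero (x : ℕ × ℕ × (Σ _ : ℕ, ℕ)) : sh x 0 = x.2.2.1 := by
  simp [sh]

lemma sh_one (x : ℕ × ℕ × (Σ _ : ℕ, ℕ)) : sh x 1 = x.2.2.2 := by
  simp [sh]

lemma vel_eq (P : Po L) (x : ℕ × ℕ × (Σ _ : ℕ, ℕ)) :
    vel P x = P ^ x.1 * monomial (sh x) 1 := by
  unfold vel sh
  rw [mul_assoc, X_pow_eq_monomial, X_pow_eq_monomial, X_pow_eq_monomial, monomial_mul,
    monomial_mul, one_mul, one_mul]

/-- the leading exponent -/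
noncomputable def ex (D : ℕ) (x : ℕ × ℕ × (Σ _ : ℕ, ℕ)) : Fin 3 →₀ ℕ :=
  Finsupp.single 2 (x.1 * D) + sh x

lemma ex_two (D : ℕ) (x : ℕ × ℕ × (Σ _ : ℕ, ℕ)) : ex D x 2 = x.1 * D + x.2.1 := by
  simp [ex, sh_two]

lemma ex_inj {D : ℕ} {x y : ℕ × ℕ × (Σ _ : ℕ, ℕ)} (hx : x.2.1 < D) (hy : y.2.1 < D)
    (h : ex D x = ex D y) : x = y := by
  have h2 := DFunLike.congr_fun h 2
  rw [ex_two, ex_two] at h2
  have h0 := DFunLike.congr_fun h 0
  have h1 := DFunLike.congr_fun h 1
  simp only [ex, Finsupp.add_apply, sh_zero, sh_one] at h0 h1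
  have c0 : (Finsupp.single (2 : Fin 3) (x.1 * D)) 0 = 0 := by simp
  have c0' : (Finsupp.single (2 : Fin 3) (y.1 * D)) 0 = 0 := by simp
  have c1 : (Finsupp.single (2 : Fin 3) (x.1 * D)) 1 = 0 := by simp
  have c1' : (Finsupp.single (2 : Fin 3) (y.1 * D)) 1 = 0 := by simp
  rw [c0, c0'] at h0
  rw [c1, c1'] at h1
  have hD : 0 < D := by omega
  have ha : x.1 = y.1 := by
    have e1 : (x.1 * D + x.2.1) / D = x.1 := by
      rw [mul_comm, Nat.mul_add_div hD, Nat.div_eq_of_lt hx, add_zero]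
    have e2 : (y.1 * D + y.2.1) / D = y.1 := by
      rw [mul_comm, Nat.mul_add_div hD, Nat.div_eq_of_lt hy, add_zero]
    rw [← e1, ← e2, h2]
  obtain ⟨xa, xi, xb, xc⟩ := x
  obtain ⟨ya, yi, yb, yc⟩ := y
  simp only at *
  subst ha
  have hi : xi = yi := by omega
  have hb : xb = yb := by omega
  have hc : xc = yc := by omega
  subst hi; subst hb; subst hc
  rfl

lemma coeff_vel {P : Po L} {D : ℕ} (hP : P.totalDegree ≤ D) (x : ℕ × ℕ × (Σ _ : ℕ, ℕ))
    (n : Fin 3 →₀ ℕ) (hn : x.1 * D + x.2.1 ≤ n 2) :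
    coeff n (vel P x) = if n = ex D x then coeff (Finsupp.single 2 D) P ^ x.1 else 0 := by
  classical
  rw [vel_eq, coeff_mul_monomial', mul_one]
  by_cases h : n = ex D x
  · rw [if_pos h]
    have hle : sh x ≤ n := by
      rw [h]; unfold ex; exact le_add_self
    rw [if_pos hle]
    have : n - sh x = Finsupp.single 2 (x.1 * D) := by
      rw [h]; unfold ex; exact add_tsub_cancel_right _ _
    rw [this, coeff_pow_lead hP]
  · rw [if_neg h]
    split_ifs with hle
    · by_contra hcon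
      have h1 := supp_deg (D := x.1 * D) ((totalDegree_pow _ _).trans
        (Nat.mul_le_mul_left _ hP)) hcon
      have h2 : (n - sh x) 2 = n 2 - x.2.1 := by
        rw [Finsupp.tsub_apply, sh_two]
      apply h
      have h3 : n - sh x = Finsupp.single 2 (x.1 * D) :=
        eq_single_of (by omega) (by omega) (by omega)
      unfold ex
      rw [← h3, tsub_add_cancel_of_le hle]
    · rfl

/-- the finite set of indices -/
def idx (k D l : ℕ) : Finset (ℕ × ℕ × (Σ _ : ℕ, ℕ)) :=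
  Finset.range (k + 1) ×ˢ Finset.range D ×ˢ
    (Finset.range (l + 1)).sigma (fun b => Finset.range (l + 1 - b))

lemma gauss (n : ℕ) : (∑ b ∈ Finset.range n, (n - b)) * 2 = n * (n + 1) := by
  induction n with
  | zero => simp
  | succ n ih =>
    rw [Finset.sum_range_succ']
    have : ∀ b ∈ Finset.range n, n + 1 - (b + 1) = n - b := by intro b _; omega
    rw [Finset.sum_congr rfl this, Nat.sub_zero, add_mul, ih]
    ring

lemma card_idx (k D l : ℕ) : (idx k D l).card = (k + 1) * D * ((l + 1) * (l + 2) / 2) := by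
  unfold idx
  rw [Finset.card_product, Finset.card_product, Finset.card_sigma, Finset.card_range,
    Finset.card_range]
  simp only [Finset.card_range]
  have h := gauss (l + 1)
  have h2 : ∑ b ∈ Finset.range (l + 1), (l + 1 - b) = (l + 1) * (l + 2) / 2 := by
    rw [← h, Nat.mul_div_cancel _ (by norm_num)]
  rw [h2, mul_assoc]

lemma mem_idx {k D l : ℕ} {x : ℕ × ℕ × (Σ _ : ℕ, ℕ)} :
    x ∈ idx k D l ↔ x.1 ≤ k ∧ x.2.1 < D ∧ x.2.2.1 + x.2.2.2 ≤ l := by
  unfold idx
  rw [Finset.mem_product, Finset.mem_product, Finset.mem_sigma, Finset.mem_range,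
    Finset.mem_range, Finset.mem_range, Finset.mem_range]
  omega

lemma vel_indep {P : Po L} {D : ℕ} (hP : P.totalDegree ≤ D)
    (hκ : coeff (Finsupp.single 2 D) P ≠ 0) (k l : ℕ) :
    LinearIndependent L (fun x : {x // x ∈ idx k D l} => vel P x.1) := by
  classical
  rw [linearIndependent_iff']
  intro s g hg
  by_contra hcon
  push Not at hcon
  obtain ⟨x1, hx1, hgx1⟩ := hcon
  obtain ⟨x, hx, hmax⟩ := Finset.exists_max_image (s.filter (fun x => g x ≠ 0))
    (fun x => x.1.1 * D + x.1.2.1) ⟨x1, Finset.mem_filter.2 ⟨hx1, hgx1⟩⟩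
  rw [Finset.mem_filter] at hx
  have h1 := congrArg (coeff (ex D x.1)) hg
  rw [coeff_sum, coeff_zero, Finset.sum_eq_single x] at h1
  · rw [coeff_smul, coeff_vel hP x.1 _ (by rw [ex_two]), if_pos rfl, smul_eq_mul] at h1
    rcases mul_eq_zero.1 h1 with h2 | h2
    · exact hx.2 h2
    · exact pow_ne_zero _ hκ h2
  · intro y hy hyx
    rw [coeff_smul]
    by_cases hgy : g y = 0
    · rw [hgy, zero_smul]
    · have h3 := hmax y (Finset.mem_filter.2 ⟨hy, hgy⟩)
      rw [coeff_vel hP y.1 _ (by rw [ex_two]; exact h3), if_neg, smul_zero]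
      intro h4
      apply hyx
      apply Subtype.ext
      exact (ex_inj (mem_idx.1 x.2).2.1 (mem_idx.1 y.2).2.1 h4).symm
  · intro h
    exact absurd hx.1 h

end

theorem pf_DIM : T_DIM := by
  intro L _ P D k l _ hP hκ
  have h1 := finrank_span_eq_card (vel_indep hP hκ k l)
  rw [Fintype.card_coe, card_idx] at h1
  have h2 : Vsp P k D l = Submodule.span L (Set.range
      (fun x : {x // x ∈ idx k D l} => vel P x.1)) := by
    unfold Vsp
    congr 1
    ext q
    constructor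
    · rintro ⟨a, i, b, c, ha, hi, hbc, rfl⟩
      exact ⟨⟨(a, i, ⟨b, c⟩), mem_idx.2 ⟨ha, hi, hbc⟩⟩, rfl⟩
    · rintro ⟨⟨x, hx⟩, rfl⟩
      rw [mem_idx] at hx
      exact ⟨x.1, x.2.1, x.2.2.1, x.2.2.2, hx.1, hx.2.1, hx.2.2, rfl⟩
  rw [h2, h1]

end Pool.Agent.H14.ZA
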