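import Pool.Agent.H8.ZA.Targets2

/-!
# Specialization to the algebraic numbers
-/

set_option autoImplicit false

open MvPolynomial

namespace Pool.Agent.H14.ZA

open Pool.Agent.H8.ZA

/-- control of algebraic dependence -/
lemma spc_dep {k : Type} [Field k] (ι : Qb →+* k) (A : Subring k) (φ : A →+* Qb)
    (hι : ∀ z, ∃ h : ι z ∈ A, φ ⟨ι z, h⟩ = z) (F : MvPolynomial (Fin 2) k) (hF : F ≠ 0) :
    ∃ F' : MvPolynomial (Fin 2) Qb, F' ≠ 0 ∧
      ∀ y : Fin 2 → A, eval (fun i => (y i : k)) F = 0 → eval (fun i => φ (y i)) F' = 0 := by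
  classical
  have hker : RingHom.ker φ ≠ ⊤ := RingHom.ker_ne_top φ
  obtain ⟨B, hAB, hB⟩ := Ideal.image_subset_nonunits_valuationSubring (RingHom.ker φ) hker
  let kap := IsLocalRing.ResidueField B
  let res : B →+* kap := IsLocalRing.residue B
  let incl : A →+* B := Subring.inclusion (T := B.toSubring) hAB
  have hιA : ∀ z, ι z ∈ A := fun z => (hι z).1
  let ιA : Qb →+* A := ι.codRestrict A hιA
  have hφι : ∀ z, φ (ιA z) = z := fun z => (hι z).2
  let j : Qb →+* kap := (res.comp incl).comp ιA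
  -- residues of elements of `A`
  have hres : ∀ y : A, res (incl y) = j (φ y) := by
    intro y
    have h1 : φ (y - ιA (φ y)) = 0 := by rw [map_sub, hφι, sub_self]
    have h2 : ((y - ιA (φ y) : A) : k) ∈ B.nonunits := hB ⟨_, h1, rfl⟩
    have h3 : incl (y - ιA (φ y)) ∈ IsLocalRing.maximalIdeal B := by
      rw [← ValuationSubring.coe_mem_nonunits_iff]
      exact h2
    have h4 : res (incl (y - ιA (φ y))) = 0 := (IsLocalRing.residue_eq_zero_iff _).2 h3
    rw [map_sub, map_sub, sub_eq_zero] at h4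
    exact h4
  let _ : Algebra Qb kap := j.toAlgebra
  obtain ⟨lam, hlam⟩ := LinearMap.exists_leftInverse_of_injective (Algebra.linearMap Qb kap)
    (LinearMap.ker_eq_bot.2 (FaithfulSMul.algebraMap_injective Qb kap))
  have hlam1 : lam 1 = 1 := by
    have := LinearMap.congr_fun hlam 1
    simpa using this
  have hlamj : ∀ (x : kap) (z : Qb), lam (x * j z) = lam x * z := by
    intro x z
    have h1 : x * j z = z • x := by
      rw [Algebra.smul_def, mul_comm]
      rfl
    rw [h1, map_smul, smul_eq_mul, mul_comm]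
  -- the coefficient of maximal valuation
  obtain ⟨m0, hm0, hmax⟩ := Finset.exists_max_image F.support (fun m => B.valuation (F.coeff m))
    (Finset.nonempty_iff_ne_empty.2 (fun h => hF (support_eq_empty.1 h)))
  have hc0 : F.coeff m0 ≠ 0 := mem_support_iff.1 hm0
  have hmem : ∀ m, F.coeff m / F.coeff m0 ∈ B := by
    intro m
    by_cases hm : m ∈ F.support
    · rw [← ValuationSubring.valuation_le_one_iff, map_div₀]
      exact div_le_one_of_le₀ (hmax m hm) zero_le
    · rw [notMem_support_iff.1 hm, zero_div]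
      exact B.zero_mem
  let a : (Fin 2 →₀ ℕ) → B := fun m => ⟨F.coeff m / F.coeff m0, hmem m⟩
  refine ⟨∑ m ∈ F.support, monomial m (lam (res (a m))), ?_, ?_⟩
  · intro h0
    have h1 := congrArg (coeff m0) h0
    rw [coeff_sum, coeff_zero, Finset.sum_eq_single m0] at h1
    · rw [coeff_monomial, if_pos rfl] at h1
      have h2 : a m0 = 1 := Subtype.ext (div_self hc0)
      rw [h2, map_one, hlam1] at h1
      exact one_ne_zero h1
    · intro m _ hm
      rw [coeff_monomial, if_neg hm]
    · intro h; exact absurd hm0 h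
  · intro y hy
    rw [eval_eq'] at hy
    have h1 : ∑ m ∈ F.support, a m * ∏ i, incl (y i) ^ m i = 0 := by
      apply Subtype.ext
      have h2 : ((∑ m ∈ F.support, a m * ∏ i, incl (y i) ^ m i : B) : k) =
          ∑ m ∈ F.support, (F.coeff m / F.coeff m0) * ∏ i, (y i : k) ^ m i := by
        push_cast
        rfl
      rw [h2]
      have h3 : ∑ m ∈ F.support, (F.coeff m / F.coeff m0) * ∏ i, (y i : k) ^ m i =
          (∑ m ∈ F.support, F.coeff m * ∏ i, (y i : k) ^ m i) / F.coeff m0 := by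
        rw [Finset.sum_div]
        refine Finset.sum_congr rfl fun m _ => ?_
        ring
      rw [h3, hy, zero_div]
      rfl
    have h2 := congrArg (fun x => lam (res x)) h1
    simp only [map_sum, map_mul, map_prod, map_pow, map_zero, hres] at h2
    rw [eval_sum]
    rw [← h2]
    refine Finset.sum_congr rfl fun m _ => ?_
    rw [eval_monomial]
    have h4 : ∏ i, j (φ (y i)) ^ m i = j (∏ i, φ (y i) ^ m i) := by
      rw [map_prod]
      simp only [map_pow]
    rw [h4, hlamj, Finsupp.prod_fintype _ _ (fun i => pow_zero _)]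

theorem pf_SPC : T_SPC := by
  intro k _ _ _ S E hE
  classical
  let ι : Qb →+* k := (IsAlgClosed.lift : Qb →ₐ[ℚ] k).toRingHom
  let _ : Algebra Qb k := ι.toAlgebra
  set e0 : k := ∏ e ∈ E, e with he0
  have he00 : e0 ≠ 0 := Finset.prod_ne_zero_iff.2 hE
  let T : Finset k := S ∪ E ∪ {e0⁻¹}
  let R : Subalgebra Qb k := Algebra.adjoin Qb (T : Set k)
  have hT : ∀ t ∈ T, t ∈ R := fun t ht => Algebra.subset_adjoin ht
  have : Algebra.FiniteType Qb R :=
    (Subalgebra.fg_iff_finiteType R).1 (Subalgebra.fg_adjoin_finset T)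
  obtain ⟨mm, hmm⟩ := Ideal.exists_maximal R
  let _ := Ideal.Quotient.field mm
  have : Module.Finite Qb (R ⧸ mm) := finite_of_finite_type_of_isJacobsonRing Qb (R ⧸ mm)
  have hbij : Function.Bijective (algebraMap Qb (R ⧸ mm)) :=
    IsAlgClosed.algebraMap_bijective_of_isIntegral
  let eq : Qb ≃ₐ[Qb] (R ⧸ mm) := AlgEquiv.ofBijective (Algebra.ofId Qb (R ⧸ mm)) hbij
  let φ : R →ₐ[Qb] Qb := (eq.symm : (R ⧸ mm) →ₐ[Qb] Qb).comp (Ideal.Quotient.mkₐ Qb mm)
  let φA : R.toSubring →+* Qb := (φ : R →+* Qb)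
  have hι : ∀ z, ∃ h : ι z ∈ R.toSubring, φA ⟨ι z, h⟩ = z := by
    intro z
    refine ⟨R.algebraMap_mem z, ?_⟩
    exact φ.commutes z
  refine ⟨ι, R.toSubring, φA, ?_, ?_, ?_, hι, ?_⟩
  · intro a ha
    exact hT a (by simp [T, ha])
  · intro e he heE h0
    have h1 : e * ((∏ e' ∈ E.erase e, e') * e0⁻¹) = 1 := by
      rw [← mul_assoc, Finset.mul_prod_erase E (fun x => x) heE]
      exact mul_inv_cancel₀ he00
    have h2 : (∏ e' ∈ E.erase e, e') * e0⁻¹ ∈ R := by
      refine R.mul_mem (R.prod_mem fun x hx => hT x ?_) (hT _ ?_)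
      · have := Finset.mem_of_mem_erase hx
        simp [T, this]
      · simp [T]
    have h3 : φA ⟨e, he⟩ * φA ⟨_, h2⟩ = 1 := by
      rw [← map_mul, ← map_one φA]
      congr 1
      exact Subtype.ext h1
    rw [h0, zero_mul] at h3
    exact zero_ne_one h3
  · intro e he
    exact hT e (by simp [T, he])
  · intro F hF
    exact spc_dep ι R.toSubring φA hι F hF

end Pool.Agent.H14.ZA
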