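import Pool.Agent.H8.ZA.Targets

/-!
# The auxiliary polynomial: choice of coordinates
-/

set_option autoImplicit false

open MvPolynomial

namespace Pool.Agent.H14.ZA

open Pool.Agent.H8.ZA
open Pool.Agent.H12.ZD (pmap)

namespace AU

/-- the linear map with matrix `M` as a tuple -/
noncomputable def lm {k : Type} [Field k] (M : Matrix (Fin 3) (Fin 3) k) : Tup k :=
  fun i => ∑ j, C (M i j) * X j

variable {k : Type} [Field k]

lemma comp_lm_apply (M : Matrix (Fin 3) (Fin 3) k) (g : Tup k) (i : Fin 3) :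
    comp (lm M) g i = ∑ j, C (M i j) * g j := by
  unfold comp lm
  rw [map_sum]
  apply Finset.sum_congr rfl
  intro j _
  rw [map_mul, aeval_C, aeval_X, algebraMap_eq]

lemma comp_lm_lm (M N : Matrix (Fin 3) (Fin 3) k) : comp (lm M) (lm N) = lm (M * N) := by
  funext i
  rw [comp_lm_apply]
  unfold lm
  simp only [Finset.mul_sum]
  rw [Finset.sum_comm]
  apply Finset.sum_congr rfl
  intro j _
  rw [Matrix.mul_apply, map_sum, Finset.sum_mul]
  apply Finset.sum_congr rfl
  intro l _
  rw [C_mul, mul_assoc]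

lemma lm_one : lm (1 : Matrix (Fin 3) (Fin 3) k) = fun i => X i := by
  funext i
  unfold lm
  rw [Finset.sum_eq_single i]
  · rw [Matrix.one_apply_eq, C_1, one_mul]
  · intro j _ hj
    rw [Matrix.one_apply_ne (Ne.symm hj), C_0, zero_mul]
  · intro h
    exact absurd (Finset.mem_univ i) h

lemma lm_hom (M : Matrix (Fin 3) (Fin 3) k) (i : Fin 3) : (lm M i).IsHomogeneous 1 := by
  unfold lm
  apply IsHomogeneous.sum
  intro j _
  exact isHomogeneous_C_mul_X _ _

lemma lm_deg (M : Matrix (Fin 3) (Fin 3) k) (i : Fin 3) : (lm M i).totalDegree ≤ 1 :=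
  (lm_hom M i).totalDegree_le

lemma pmap_lm (M : Matrix (Fin 3) (Fin 3) k) (x : Fin 3 → k) : pmap (lm M) x = M.mulVec x := by
  funext i
  show eval x (lm M i) = _
  unfold lm
  rw [map_sum, Matrix.mulVec, dotProduct]
  apply Finset.sum_congr rfl
  intro j _
  rw [map_mul, eval_C, eval_X]

/-- the coefficient of a pure power of a homogeneous polynomial is a value -/
lemma coeff_single_hom (c : Fin 3) (n : ℕ) (q : Po k) (hq : q.IsHomogeneous n) :
    coeff (Finsupp.single c n) q = eval (Pi.single c 1) q := by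
  rw [eval_eq, Finset.sum_eq_single (Finsupp.single c n)]
  · rw [Finset.prod_eq_one, mul_one]
    intro i _
    by_cases hic : i = c
    · subst hic
      rw [Pi.single_eq_same, one_pow]
    · rw [Finsupp.single_eq_of_ne hic, pow_zero]
  · intro m hm hne
    have hdeg : m.degree = n := by
      by_contra hd
      exact (mem_support_iff.1 hm) (hq.coeff_eq_zero hd)
    have : ∃ i, i ≠ c ∧ m i ≠ 0 := by
      by_contra hcon
      push Not at hcon
      apply hne
      ext i
      by_cases hic : i = c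
      · subst hic
        rw [Finsupp.single_eq_same, ← hdeg, Finsupp.degree_eq_sum, Finset.sum_eq_single i]
        · intro j _ hj
          exact hcon j hj
        · intro h
          exact absurd (Finset.mem_univ i) h
      · rw [hcon i hic, Finsupp.single_eq_of_ne hic]
    obtain ⟨i, hic, hi⟩ := this
    have h0 : ∏ i ∈ m.support, (Pi.single c 1 : Fin 3 → k) i ^ m i = 0 := by
      apply Finset.prod_eq_zero (Finsupp.mem_support_iff.2 hi)
      rw [Pi.single_eq_of_ne hic, zero_pow hi]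
    rw [h0, mul_zero]
  · intro h
    rw [notMem_support_iff.1 h, zero_mul]

lemma aeval_lm_hom (M : Matrix (Fin 3) (Fin 3) k) (n : ℕ) (q : Po k) (hq : q.IsHomogeneous n) :
    (aeval (lm M) q : Po k).IsHomogeneous n := by
  have := hq.aeval (lm M) (n := 1) (lm_hom M)
  rwa [one_mul] at this

/-- the coefficient of a pure power after a linear substitution -/
lemma coeff_single_lm (M : Matrix (Fin 3) (Fin 3) k) (c : Fin 3) (n : ℕ) (q : Po k) :
    coeff (Finsupp.single c n) (aeval (lm M) q : Po k) =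
      eval (fun i => M i c) (homogeneousComponent n q) := by
  have h1 : coeff (Finsupp.single c n) (aeval (lm M) q : Po k) =
      coeff (Finsupp.single c n) (aeval (lm M) (homogeneousComponent n q) : Po k) := by
    conv_lhs => rw [← sum_homogeneousComponent q]
    rw [map_sum, coeff_sum]
    by_cases hn : n ∈ Finset.range (q.totalDegree + 1)
    · rw [Finset.sum_eq_single n]
      · intro m _ hm
        apply (aeval_lm_hom M m _ (homogeneousComponent_isHomogeneous m q)).coeff_eq_zero
        rw [Finsupp.degree_single]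
        exact Ne.symm hm
      · intro h
        exact absurd hn h
    · rw [homogeneousComponent_eq_zero, map_zero, coeff_zero, Finset.sum_eq_zero]
      · intro m hm
        apply (aeval_lm_hom M m _ (homogeneousComponent_isHomogeneous m q)).coeff_eq_zero
        rw [Finsupp.degree_single]
        rintro rfl
        exact hn hm
      · rw [Finset.mem_range] at hn
        omega
  rw [h1, coeff_single_hom c n _ (aeval_lm_hom M n _ (homogeneousComponent_isHomogeneous n q)),
    eval_aeval, pmap_lm]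
  congr 1
  have : M.mulVec (Pi.single c 1) = fun i => M i c := by
    rw [Matrix.mulVec_single_one]
    rfl
  rw [this]

/-- an invertible matrix with a given first column -/
lemma exists_col (b : Fin 3 → k) (hb : b ≠ 0) :
    ∃ M : Matrix (Fin 3) (Fin 3) k, IsUnit M.det ∧ ∀ i, M i 0 = b i := by
  have : ∃ t, b t ≠ 0 := Function.ne_iff.1 hb
  obtain ⟨t, ht⟩ := this
  fin_cases t
  · refine ⟨!![b 0, 0, 0; b 1, 1, 0; b 2, 0, 1], ?_, ?_⟩
    · rw [Matrix.det_fin_three, isUnit_iff_ne_zero]
      simpa using ht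
    · intro i
      fin_cases i <;> rfl
  · refine ⟨!![b 0, 1, 0; b 1, 0, 0; b 2, 0, 1], ?_, ?_⟩
    · rw [Matrix.det_fin_three, isUnit_iff_ne_zero]
      simpa using ht
    · intro i
      fin_cases i <;> rfl
  · refine ⟨!![b 0, 1, 0; b 1, 0, 1; b 2, 0, 0], ?_, ?_⟩
    · rw [Matrix.det_fin_three, isUnit_iff_ne_zero]
      simpa using ht
    · intro i
      fin_cases i <;> rfl

/-- an invertible matrix with given first and third column -/
lemma exists_cols (w a : Fin 3 → k)
    (h : w 1 * a 2 - w 2 * a 1 ≠ 0 ∨ w 2 * a 0 - w 0 * a 2 ≠ 0 ∨ w 0 * a 1 - w 1 * a 0 ≠ 0) :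
    ∃ M : Matrix (Fin 3) (Fin 3) k, IsUnit M.det ∧ (∀ i, M i 0 = w i) ∧ ∀ i, M i 2 = a i := by
  rcases h with h | h | h
  · refine ⟨!![w 0, 1, a 0; w 1, 0, a 1; w 2, 0, a 2], ?_, ?_, ?_⟩
    · rw [Matrix.det_fin_three, isUnit_iff_ne_zero]
      intro h0
      apply h
      simp at h0
      linear_combination -h0
    · intro i
      fin_cases i <;> rfl
    · intro i
      fin_cases i <;> rfl
  · refine ⟨!![w 0, 0, a 0; w 1, 1, a 1; w 2, 0, a 2], ?_, ?_, ?_⟩
    · rw [Matrix.det_fin_three, isUnit_iff_ne_zero]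
      intro h0
      apply h
      simp at h0
      linear_combination -h0
    · intro i
      fin_cases i <;> rfl
    · intro i
      fin_cases i <;> rfl
  · refine ⟨!![w 0, 0, a 0; w 1, 0, a 1; w 2, 1, a 2], ?_, ?_, ?_⟩
    · rw [Matrix.det_fin_three, isUnit_iff_ne_zero]
      intro h0
      apply h
      simp at h0
      linear_combination -h0
    · intro i
      fin_cases i <;> rfl
    · intro i
      fin_cases i <;> rfl

/-- a nonzero minor form -/
lemma exists_minor (w : Fin 3 → k) (hw : w ≠ 0) :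
    ∃ m : Po k, m ≠ 0 ∧ ∀ a : Fin 3 → k, eval a m ≠ 0 →
      (w 1 * a 2 - w 2 * a 1 ≠ 0 ∨ w 2 * a 0 - w 0 * a 2 ≠ 0 ∨ w 0 * a 1 - w 1 * a 0 ≠ 0) := by
  obtain ⟨t, ht⟩ : ∃ t, w t ≠ 0 := Function.ne_iff.1 hw
  fin_cases t
  · refine ⟨C (w 0) * X 1 - C (w 1) * X 0, ?_, ?_⟩
    · intro h
      have := congrArg (eval ![0, 1, 0]) h
      simp at this
      exact ht this
    · intro a ha
      right; right
      simpa using ha
  · refine ⟨C (w 1) * X 2 - C (w 2) * X 1, ?_, ?_⟩
    · intro h
      have := congrArg (eval ![0, 0, 1]) h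
      simp at this
      exact ht this
    · intro a ha
      left
      simpa using ha
  · refine ⟨C (w 2) * X 0 - C (w 0) * X 2, ?_, ?_⟩
    · intro h
      have := congrArg (eval ![1, 0, 0]) h
      simp at this
      exact ht this
    · intro a ha
      right; left
      simpa using ha

/-- a point where a nonzero polynomial does not vanish -/
lemma exists_ne [Infinite k] (q : Po k) (hq : q ≠ 0) : ∃ a : Fin 3 → k, eval a q ≠ 0 := by
  by_contra hcon
  push Not at hcon
  exact hq (MvPolynomial.funext fun x => by rw [hcon x, map_zero])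

/-- the top component -/
lemma top_ne (q : Po k) (hq : q ≠ 0) : homogeneousComponent q.totalDegree q ≠ 0 := by
  obtain ⟨m, hm, hmd⟩ : ∃ m ∈ q.support, m.degree = q.totalDegree := by
    have hne : q.support.Nonempty := support_nonempty.2 hq
    obtain ⟨m, hm, h⟩ := Finset.exists_mem_eq_sup q.support hne (fun m => m.degree)
    refine ⟨m, hm, ?_⟩
    rw [← h]
    rfl
  intro h0
  have h1 := congrArg (coeff m) h0
  rw [coeff_homogeneousComponent, if_pos hmd, coeff_zero] at h1
  exact (mem_support_iff.1 hm) h1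

/-- the span of the monomials of degree at most `n` in the `z i` -/
noncomputable def Wz (z : Tup k) (n : ℕ) : Submodule k (Po k) :=
  Submodule.span k {q | ∃ β : Fin 3 → ℕ, ∑ i, β i ≤ n ∧ q = ∏ i, z i ^ β i}

lemma Wz_mul (z : Tup k) (m n : ℕ) : Wz z m * Wz z n ≤ Wz z (m + n) := by
  unfold Wz
  rw [Submodule.span_mul_span, Submodule.span_le]
  rintro _ ⟨a, ⟨β, hβ, rfl⟩, b, ⟨γ, hγ, rfl⟩, rfl⟩
  apply Submodule.subset_span
  refine ⟨β + γ, ?_, ?_⟩
  · simp only [Pi.add_apply, Finset.sum_add_distrib]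
    exact add_le_add hβ hγ
  · simp only [Pi.add_apply, pow_add, Finset.prod_mul_distrib]

lemma Wz_one (z : Tup k) : (1 : Po k) ∈ Wz z 0 := by
  apply Submodule.subset_span
  refine ⟨0, by simp, by simp⟩

lemma Wz_gen (z : Tup k) (j : Fin 3) : z j ∈ Wz z 1 := by
  apply Submodule.subset_span
  refine ⟨Pi.single j 1, by simp, ?_⟩
  rw [Finset.prod_eq_single j]
  · rw [Pi.single_eq_same, pow_one]
  · intro i _ hi
    rw [Pi.single_eq_of_ne hi, pow_zero]
  · intro h
    exact absurd (Finset.mem_univ j) h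

lemma Wz_mono (z : Tup k) {m n : ℕ} (h : m ≤ n) : Wz z m ≤ Wz z n := by
  apply Submodule.span_mono
  rintro q ⟨β, hβ, rfl⟩
  exact ⟨β, hβ.trans h, rfl⟩

lemma Wz_pow (z : Tup k) (q : Po k) (hq : q ∈ Wz z 1) (n : ℕ) : q ^ n ∈ Wz z n := by
  induction n with
  | zero => rw [pow_zero]; exact Wz_one z
  | succ n ih =>
    rw [pow_succ]
    exact Wz_mul z n 1 (Submodule.mul_mem_mul ih hq)

/-- monomials in linear combinations -/
lemma wsp_le (y : Po k) (z z' : Tup k) (M : Matrix (Fin 3) (Fin 3) k)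
    (hz : ∀ i, z i = ∑ j, C (M i j) * z' j) (A B : ℕ) : Wsp y z A B ≤ Wsp y z' A B := by
  unfold Wsp
  rw [Submodule.span_le]
  rintro q ⟨a, β, ha, hβ, rfl⟩
  have hzi : ∀ i, z i ∈ Wz z' 1 := by
    intro i
    rw [hz i]
    apply Submodule.sum_mem
    intro j _
    rw [← smul_eq_C_mul]
    exact Submodule.smul_mem _ _ (Wz_gen z' j)
  have h1 : ∏ i, z i ^ β i ∈ Wz z' B := by
    rw [Fin.prod_univ_three]
    rw [Fin.sum_univ_three] at hβ
    exact Wz_mono z' hβ (Wz_mul z' _ _ (Submodule.mul_mem_mul (Wz_mul z' _ _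
      (Submodule.mul_mem_mul (Wz_pow z' _ (hzi 0) _) (Wz_pow z' _ (hzi 1) _)))
      (Wz_pow z' _ (hzi 2) _)))
  have h2 : Wz z' B ≤ Submodule.comap (LinearMap.mulLeft k (y ^ a)) (Submodule.span k
      {q | ∃ (a : ℕ) (β : Fin 3 → ℕ), a ≤ A ∧ ∑ i, β i ≤ B ∧ q = y ^ a * ∏ i, z' i ^ β i}) := by
    unfold Wz
    rw [Submodule.span_le]
    rintro q ⟨γ, hγ, rfl⟩
    exact Submodule.subset_span ⟨a, γ, ha, hγ, rfl⟩
  exact h2 h1

/-- substitution in the auxiliary polynomial -/
lemma aux_subst {N A B : ℕ} (y : Po k) (z : Tup k) (f f' : Tup k) (hf : Inv f f')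
    (h : Aux N A B (fun i => (X i : Po k)) y z) :
    Aux N A B f (aeval f y) (comp z f) := by
  obtain ⟨s, s', h1, h2, h3⟩ := h
  set φ : Po k →+* Po k := (aeval f : Po k →ₐ[k] Po k).toRingHom with hφ
  have hφi : Function.Injective φ := hf.injective
  refine ⟨map φ s, map φ s', ?_, ?_, ?_⟩
  · intro h0
    apply h1
    apply map_injective φ hφi
    rw [h0, map_zero]
  · rw [h2, map_mul, map_prod]
    congr 1
    apply Finset.prod_congr rfl
    intro j _
    unfold Lf
    rw [map_add, map_sum, map_X]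
    congr 1
    apply Finset.sum_congr rfl
    intro i _
    rw [map_mul, map_C, map_X]
    congr 2
    exact aeval_X f i
  · intro γ
    rw [coeff_map]
    have h4 : Wsp y z A B ≤ Submodule.comap (aeval f : Po k →ₐ[k] Po k).toLinearMap
        (Wsp (aeval f y) (comp z f) A B) := by
      unfold Wsp
      rw [Submodule.span_le]
      rintro q ⟨a, β, ha, hβ, rfl⟩
      apply Submodule.subset_span
      refine ⟨a, β, ha, hβ, ?_⟩
      rw [AlgHom.toLinearMap_apply, map_mul, map_pow, map_prod]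
      simp only [map_pow]
      rfl
    exact h4 (h3 γ)

end AU

open AU

theorem pf_AUX (hAXC : T_AXC) : T_AUX := by
  intro k _ _ g g' i₀ d e D Λ hinv hd he hD hD1 hdΛ heΛ
  have hd1 : 1 ≤ d := hd ▸ hinv.one_le_deg
  have he1 : 1 ≤ e := he ▸ hinv.symm.one_le_deg
  -- top forms
  have top : ∀ (q : Po k) (n : ℕ), 1 ≤ n → q.totalDegree = n → homogeneousComponent n q ≠ 0 := by
    rintro q n hn rfl
    apply top_ne
    rintro rfl
    rw [totalDegree_zero] at hn
    exact absurd hn (by norm_num)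
  obtain ⟨i1, hi1⟩ := exists_deg_eq g
  obtain ⟨i2, hi2⟩ := exists_deg_eq g'
  have t1 := top (g i1) d hd1 (hi1.trans hd)
  have t2 := top (g' i2) e he1 (hi2.trans he)
  have t3 := top (comp g g i₀) D hD1 hD
  obtain ⟨b1, hb1⟩ := exists_ne _ t2
  set w : Fin 3 → k := fun i => eval b1 (homogeneousComponent e (g' i)) with hw
  have hw0 : w ≠ 0 := fun h => hb1 (congrFun h i2)
  have hb0 : b1 ≠ 0 := by
    rintro rfl
    apply hb1
    rw [eval_zero, constantCoeff_eq]
    apply (homogeneousComponent_isHomogeneous e (g' i2)).coeff_eq_zero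
    rw [map_zero]
    omega
  obtain ⟨m, hm0, hm⟩ := exists_minor w hw0
  obtain ⟨a3, ha3⟩ := exists_ne (homogeneousComponent D (comp g g i₀) *
    homogeneousComponent d (g i1) * m) (mul_ne_zero (mul_ne_zero t3 t1) hm0)
  rw [map_mul, map_mul] at ha3
  have ha3D := left_ne_zero_of_mul (left_ne_zero_of_mul ha3)
  have ha3d := right_ne_zero_of_mul (left_ne_zero_of_mul ha3)
  have ha3m := right_ne_zero_of_mul ha3
  obtain ⟨A, hAdet, hA0, hA2⟩ := exists_cols w a3 (hm a3 ha3m)
  obtain ⟨C0, hCdet, hC0⟩ := exists_col b1 hb0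
  have hAc : (fun i => A i 2) = a3 := funext hA2
  have hAw : (fun i => A i 0) = w := funext hA0
  have hCc : (fun i => C0 i 0) = b1 := funext hC0
  have hAA : A * A⁻¹ = 1 := Matrix.mul_nonsing_inv A hAdet
  have hAA' : A⁻¹ * A = 1 := Matrix.nonsing_inv_mul A hAdet
  have hCC : C0 * C0⁻¹ = 1 := Matrix.mul_nonsing_inv C0 hCdet
  have hCC' : C0⁻¹ * C0 = 1 := Matrix.nonsing_inv_mul C0 hCdet
  set Xt : Tup k := comp (comp (lm C0⁻¹) g) (lm A) with hXt
  set Zt : Tup k := comp (comp (lm A⁻¹) g') (lm C0) with hZt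
  set p : Po k := aeval (lm C0) (g i₀) with hp
  have hInv : Inv Xt Zt := by
    constructor
    · rw [hXt, hZt, comp_assoc, comp_assoc, comp_assoc, ← comp_assoc (lm A) (lm A⁻¹),
        comp_lm_lm, hAA, lm_one, X_comp, ← comp_assoc g g', hinv.left, X_comp, comp_lm_lm, hCC',
        lm_one]
    · rw [hXt, hZt, comp_assoc, comp_assoc, comp_assoc, ← comp_assoc (lm C0) (lm C0⁻¹),
        comp_lm_lm, hCC, lm_one, X_comp, ← comp_assoc g' g, hinv.right, X_comp, comp_lm_lm, hAA',
        lm_one]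
  have hdeg : ∀ (M N : Matrix (Fin 3) (Fin 3) k) (f : Tup k) (n : ℕ), deg f = n →
      ∀ i, (comp (comp (lm M) f) (lm N) i).totalDegree ≤ n := by
    intro M N f n hf i
    have h1 : (comp (lm M) f i).totalDegree ≤ n := by
      have := totalDegree_aeval_le f n (fun j => hf ▸ totalDegree_le_deg f j) (lm M i)
      calc (comp (lm M) f i).totalDegree ≤ (lm M i).totalDegree * n := this
        _ ≤ 1 * n := Nat.mul_le_mul_right _ (lm_deg M i)
        _ = n := one_mul n
    have h2 := totalDegree_aeval_le (lm N) 1 (lm_deg N) (comp (lm M) f i)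
    rw [mul_one] at h2
    exact h2.trans h1
  have hpd : p.totalDegree ≤ d := by
    have h2 := totalDegree_aeval_le (lm C0) 1 (lm_deg C0) (g i₀)
    rw [mul_one] at h2
    exact h2.trans (hd ▸ totalDegree_le_deg g i₀)
  have hPe : aeval Xt p = aeval (lm A) (comp g g i₀) := by
    rw [hp, ← aeval_comp, hXt, ← comp_assoc, ← comp_assoc, comp_lm_lm, hCC, lm_one, X_comp,
      aeval_comp]
    rfl
  have hPd : (aeval Xt p).totalDegree ≤ D := by
    rw [hPe]
    have h2 := totalDegree_aeval_le (lm A) 1 (lm_deg A) (comp g g i₀)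
    rw [mul_one, hD] at h2
    exact h2
  have hPc : coeff (Finsupp.single 2 D) (aeval Xt p) ≠ 0 := by
    rw [hPe, coeff_single_lm, hAc]
    exact ha3D
  -- the top coefficients of the coordinates
  have hcf : ∀ (M N : Matrix (Fin 3) (Fin 3) k) (f : Tup k) (n : ℕ) (c i : Fin 3),
      coeff (Finsupp.single c n) (comp (comp (lm M) f) (lm N) i) =
      M.mulVec (fun j => eval (fun i => N i c) (homogeneousComponent n (f j))) i := by
    intro M N f n c i
    show coeff (Finsupp.single c n) (aeval (lm N) (comp (lm M) f i) : Po k) = _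
    rw [coeff_single_lm, comp_lm_apply, map_sum, map_sum, Matrix.mulVec, dotProduct]
    apply Finset.sum_congr rfl
    intro j _
    rw [homogeneousComponent_C_mul, map_mul, eval_C]
  have hXc : ∃ i, coeff (Finsupp.single 2 d) (Xt i) ≠ 0 := by
    by_contra hcon
    push Not at hcon
    have h0 : (C0⁻¹).mulVec (fun j => eval a3 (homogeneousComponent d (g j))) = 0 := by
      funext i
      rw [← hAc, ← hcf C0⁻¹ A g d 2 i]
      exact hcon i
    have h1 := congrArg C0.mulVec h0
    rw [Matrix.mulVec_mulVec, hCC, Matrix.one_mulVec, Matrix.mulVec_zero] at h1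
    exact ha3d (congrFun h1 i1)
  have hZc : coeff (Finsupp.single 0 e) (Zt 0) ≠ 0 := by
    have h0 : coeff (Finsupp.single 0 e) (Zt 0) = (A⁻¹).mulVec w 0 := by
      rw [hZt, hcf A⁻¹ C0 g' e 0 0, hCc]
    have h1 : w = A.mulVec (Pi.single 0 1) := by
      rw [Matrix.mulVec_single_one, ← hAw]
      rfl
    rw [h0, h1, Matrix.mulVec_mulVec, hAA', Matrix.one_mulVec, Pi.single_eq_same]
    exact one_ne_zero
  have haux := hAXC k Xt Zt p d e D Λ hInv hd1 he1 hD1 hdΛ heΛ (hdeg _ _ g d hd)
    (hdeg _ _ g' e he) hpd hPd hPc hXc hZc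
  have hlmInv : Inv (lm C0⁻¹) (lm C0) := by
    constructor
    · rw [comp_lm_lm, hCC', lm_one]
    · rw [comp_lm_lm, hCC, lm_one]
  have h1 := aux_subst p Zt (lm C0⁻¹) (lm C0) hlmInv haux
  have h2 : aeval (lm C0⁻¹) p = g i₀ := by
    rw [hp, ← aeval_comp, comp_lm_lm, hCC, lm_one]
    exact aeval_X_left_apply _
  have h3 : comp Zt (lm C0⁻¹) = comp (lm A⁻¹) g' := by
    rw [hZt, comp_assoc, comp_lm_lm, hCC, lm_one, comp_X]
  rw [h2, h3] at h1
  refine ⟨C0⁻¹, C0, hCC, ?_⟩
  obtain ⟨s, s', g1, g2, g3⟩ := h1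
  exact ⟨s, s', g1, g2, fun γ => wsp_le (g i₀) _ g' A⁻¹ (comp_lm_apply A⁻¹ g') _ _ (g3 γ)⟩

end Pool.Agent.H14.ZA
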